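import Pool.Agent.Helper65.CG.Defs

/-!
# Project UB, module R: the function `rho`
-/

set_option autoImplicit false

namespace Pool.Agent.Helper65.CG

variable {m : ℕ}

theorem rho_eq (hm : 1 ≤ m) {x : ℕ} (hx : x ≤ m) : rho m x = Real.logb 2 (1 + (x : ℝ)) := by
  rcases Nat.lt_or_ge x m with h | h
  · rw [rho, Nat.div_eq_of_lt h, Nat.mod_eq_of_lt h]
    simp
  · have hxm : x = m := le_antisymm hx h
    subst hxm
    rw [rho, Nat.div_self hm, Nat.mod_self]
    simp [add_comm]

theorem rho_nonneg (m x : ℕ) : 0 ≤ rho m x := by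
  rw [rho]
  have h1 : 0 ≤ Real.logb 2 ((m : ℝ) + 1) :=
    Real.logb_nonneg one_lt_two (by have : (0 : ℝ) ≤ m := Nat.cast_nonneg m; linarith)
  have h2 : 0 ≤ Real.logb 2 (1 + ((x % m : ℕ) : ℝ)) :=
    Real.logb_nonneg one_lt_two (by have : (0 : ℝ) ≤ ((x % m : ℕ) : ℝ) := Nat.cast_nonneg _; linarith)
  positivity

theorem rho_add (hm : 1 ≤ m) (x y : ℕ) : rho m (x + y) ≤ rho m x + rho m y := by
  have hx := Nat.mod_lt x hm
  have hy := Nat.mod_lt y hm
  set a := x / m with ha
  set b := y / m with hb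
  set x' := x % m with hx'
  set y' := y % m with hy'
  have hxe : x = m * a + x' := (Nat.div_add_mod x m).symm
  have hye : y = m * b + y' := (Nat.div_add_mod y m).symm
  have ex : rho m x = (a : ℝ) * Real.logb 2 ((m : ℝ) + 1) + Real.logb 2 (1 + (x' : ℝ)) := by
    rw [rho]
  have ey : rho m y = (b : ℝ) * Real.logb 2 ((m : ℝ) + 1) + Real.logb 2 (1 + (y' : ℝ)) := by
    rw [rho]
  have hx0 : (0 : ℝ) ≤ x' := Nat.cast_nonneg _
  have hy0 : (0 : ℝ) ≤ y' := Nat.cast_nonneg _
  rw [ex, ey]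
  rcases Nat.lt_or_ge (x' + y') m with h | h
  · have e1 : (x + y) / m = a + b := by
      have : x + y = x' + y' + m * (a + b) := by rw [hxe, hye]; ring
      rw [this, Nat.add_mul_div_left _ _ hm, Nat.div_eq_of_lt h, zero_add]
    have e2 : (x + y) % m = x' + y' := by
      have : x + y = x' + y' + m * (a + b) := by rw [hxe, hye]; ring
      rw [this, Nat.add_mul_mod_self_left, Nat.mod_eq_of_lt h]
    rw [rho, e1, e2]
    have h1 : Real.logb 2 (1 + ((x' + y' : ℕ) : ℝ)) ≤
        Real.logb 2 (1 + (x' : ℝ)) + Real.logb 2 (1 + (y' : ℝ)) := by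
      rw [← Real.logb_mul (by positivity) (by positivity)]
      apply Real.logb_le_logb_of_le one_lt_two (by positivity)
      push_cast
      nlinarith [mul_nonneg hx0 hy0]
    push_cast at h1 ⊢
    linarith
  · have h' : x' + y' - m < m := by omega
    have e0 : x + y = x' + y' - m + m * (a + b + 1) := by
      have : x + y = x' + y' + m * (a + b) := by rw [hxe, hye]; ring
      have h3 : m * (a + b + 1) = m * (a + b) + m := by ring
      omega
    have e1 : (x + y) / m = a + b + 1 := by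
      rw [e0, Nat.add_mul_div_left _ _ hm, Nat.div_eq_of_lt h', zero_add]
    have e2 : (x + y) % m = x' + y' - m := by
      rw [e0, Nat.add_mul_mod_self_left, Nat.mod_eq_of_lt h']
    rw [rho, e1, e2]
    have h1 : Real.logb 2 ((m : ℝ) + 1) + Real.logb 2 (1 + ((x' + y' - m : ℕ) : ℝ)) ≤
        Real.logb 2 (1 + (x' : ℝ)) + Real.logb 2 (1 + (y' : ℝ)) := by
      rw [← Real.logb_mul (by positivity) (by positivity),
        ← Real.logb_mul (by positivity) (by positivity)]
      apply Real.logb_le_logb_of_le one_lt_two (by positivity)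
      rw [Nat.cast_sub h]
      push_cast
      have hx1 : (x' : ℝ) ≤ m := by exact_mod_cast hx.le
      have hy1 : (y' : ℝ) ≤ m := by exact_mod_cast hy.le
      nlinarith [mul_nonneg (sub_nonneg.2 hx1) (sub_nonneg.2 hy1)]
    push_cast at h1 ⊢
    linarith

theorem h5_rho_one (hm : 1 ≤ m) : rho m 1 = 1 := by
  rw [rho_eq hm hm]
  norm_num

theorem h5_rho_zero (hm : 1 ≤ m) : rho m 0 = 0 := by
  rw [rho_eq hm (Nat.zero_le m)]
  norm_num

theorem h5_rho_succ_le (hm : 1 ≤ m) (x : ℕ) : rho m x ≤ rho m (x + 1) := by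
  have hx := Nat.mod_lt x hm
  set a := x / m with ha
  set x' := x % m with hx'
  have hxe : x = m * a + x' := (Nat.div_add_mod x m).symm
  have ex : rho m x = (a : ℝ) * Real.logb 2 ((m : ℝ) + 1) + Real.logb 2 (1 + (x' : ℝ)) := by
    rw [rho]
  rw [ex]
  rcases Nat.lt_or_ge (x' + 1) m with h | h
  · have e0 : x + 1 = x' + 1 + m * a := by omega
    have e1 : (x + 1) / m = a := by
      rw [e0, Nat.add_mul_div_left _ _ hm, Nat.div_eq_of_lt h, zero_add]
    have e2 : (x + 1) % m = x' + 1 := by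
      rw [e0, Nat.add_mul_mod_self_left, Nat.mod_eq_of_lt h]
    rw [rho, e1, e2]
    have h1 : Real.logb 2 (1 + (x' : ℝ)) ≤ Real.logb 2 (1 + ((x' + 1 : ℕ) : ℝ)) := by
      apply Real.logb_le_logb_of_le one_lt_two (by positivity)
      push_cast
      linarith
    linarith
  · have hxm : x' + 1 = m := by omega
    have e0 : x + 1 = 0 + m * (a + 1) := by
      have : m * (a + 1) = m * a + m := by ring
      omega
    have e1 : (x + 1) / m = a + 1 := by
      rw [e0, Nat.add_mul_div_left _ _ hm, Nat.zero_div, zero_add]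
    have e2 : (x + 1) % m = 0 := by
      rw [e0, Nat.add_mul_mod_self_left, Nat.zero_mod]
    rw [rho, e1, e2]
    have h1 : Real.logb 2 (1 + (x' : ℝ)) ≤ Real.logb 2 ((m : ℝ) + 1) := by
      apply Real.logb_le_logb_of_le one_lt_two (by positivity)
      have : (x' : ℝ) + 1 = m := by exact_mod_cast hxm
      linarith
    push_cast
    simp only [add_zero, Real.logb_one]
    linarith

theorem rho_mono (hm : 1 ≤ m) {x y : ℕ} (h : x ≤ y) : rho m x ≤ rho m y :=
  monotone_nat_of_le_succ (h5_rho_succ_le hm) h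

theorem rho_le (hm : 1 ≤ m) (x : ℕ) : rho m x ≤ x := by
  induction x with
  | zero => rw [h5_rho_zero hm]; simp
  | succ x ih =>
    have h1 := rho_add hm x 1
    rw [h5_rho_one hm] at h1
    push_cast
    linarith

theorem rho_sub (hm : 1 ≤ m) (x t : ℕ) : rho m x - t ≤ rho m (x - t) := by
  have h0 : x = (x - t) + min t x := by omega
  have h1 := rho_add hm (x - t) (min t x)
  rw [← h0] at h1
  have h2 := rho_le hm (min t x)
  have h3 : ((min t x : ℕ) : ℝ) ≤ t := by exact_mod_cast min_le_left t x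
  linarith

theorem h5_logb_lin (hm : 1 ≤ m) {r : ℕ} (hr : r ≤ m) :
    Real.logb 2 ((m : ℝ) + 1) / m * r ≤ Real.logb 2 (1 + (r : ℝ)) := by
  have hm0 : (0 : ℝ) < m := by exact_mod_cast hm
  have h1 : (1 + (m : ℝ)) ^ ((r : ℝ) / m) ≤ 1 + (r : ℝ) / m * m :=
    rpow_one_add_le_one_add_mul_self (by linarith) (by positivity)
      (by rw [div_le_one hm0]; exact_mod_cast hr)
  rw [div_mul_cancel₀ _ hm0.ne'] at h1
  have h2 := Real.logb_le_logb_of_le one_lt_two (by positivity) h1
  rw [Real.logb_rpow_eq_mul_logb_of_pos (by positivity)] at h2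
  rw [add_comm (m : ℝ) 1]
  calc Real.logb 2 (1 + (m : ℝ)) / m * r = (r : ℝ) / m * Real.logb 2 (1 + (m : ℝ)) := by ring
    _ ≤ _ := h2

theorem rho_lin (hm : 1 ≤ m) (x : ℕ) : Real.logb 2 ((m : ℝ) + 1) / m * x ≤ rho m x := by
  have hx := Nat.mod_lt x hm
  have hm0 : (0 : ℝ) < m := by exact_mod_cast hm
  have h1 := h5_logb_lin hm hx.le
  have hxe : (x : ℝ) = m * ((x / m : ℕ) : ℝ) + ((x % m : ℕ) : ℝ) := by
    exact_mod_cast (Nat.div_add_mod x m).symm
  rw [rho]
  calc Real.logb 2 ((m : ℝ) + 1) / m * x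
      = ((x / m : ℕ) : ℝ) * Real.logb 2 ((m : ℝ) + 1) +
        Real.logb 2 ((m : ℝ) + 1) / m * ((x % m : ℕ) : ℝ) := by
        rw [hxe]
        field_simp
    _ ≤ _ := by linarith

theorem rho_sum (hm : 1 ≤ m) {ι : Type} (T : Finset ι) (x : ι → ℕ) (hx : ∀ a ∈ T, x a ≤ m) :
    rho m (∑ a ∈ T, x a) ≤ ∑ a ∈ T, Real.logb 2 (1 + (x a : ℝ)) := by
  classical
  induction T using Finset.induction_on with
  | empty => simp [h5_rho_zero hm]
  | insert a T ha ih =>
    rw [Finset.sum_insert ha, Finset.sum_insert ha]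
    have h1 := rho_add hm (x a) (∑ a ∈ T, x a)
    rw [rho_eq hm (hx a (Finset.mem_insert_self a T))] at h1
    have h2 := ih fun b hb => hx b (Finset.mem_insert_of_mem hb)
    linarith

end Pool.Agent.Helper65.CG
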